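import Mathlib

/-!
# Local Lie groups and their one-parameter subgroups: basic definitions
-/

set_option autoImplicit false

namespace Pool.Agent.TH91.LG

open Topology Filter
open scoped ContDiff

/-- A topological group with a chart around the identity (sending `1` to `0`) in which the
multiplication and the inversion are smooth and all conjugations are differentiable at `1`. -/
structure LocLie (G : Type*) [Group G] [TopologicalSpace G] (E : Type*) [NormedAddCommGroup E]
    [NormedSpace ℝ E] where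
  /-- the chart -/
  e : OpenPartialHomeomorph G E
  one_mem : (1 : G) ∈ e.source
  map_one : e 1 = 0
  mul : ContDiffAt ℝ ∞ (fun p : E × E => e (e.symm p.1 * e.symm p.2)) (0, 0)
  inv : ContDiffAt ℝ ∞ (fun x : E => e (e.symm x)⁻¹) 0
  conj : ∀ g : G, DifferentiableAt ℝ (fun x : E => e (g * e.symm x * g⁻¹)) 0

/-- `L.T γ X`: the curve `γ` is at `1` at time `0`, with velocity `X` in the chart. -/
def LocLie.T {G : Type*} [Group G] [TopologicalSpace G] {E : Type*} [NormedAddCommGroup E]
    [NormedSpace ℝ E] (L : LocLie G E) (γ : ℝ → G) (X : E) : Prop :=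
  γ 0 = 1 ∧ ContinuousAt γ 0 ∧ HasDerivAt (fun t => L.e (γ t)) X 0

/-- The calculus of velocities at the identity, one-parameter subgroups and the adjoint
representation of a Lie group with Lie algebra (as a vector space) `E`. -/
structure LieStr (G : Type*) [Group G] [TopologicalSpace G] (E : Type*) [NormedAddCommGroup E]
    [NormedSpace ℝ E] where
  /-- `T γ X`: the curve `γ` is at `1` at time `0`, with velocity `X` -/
  T : (ℝ → G) → E → Prop
  T_one : T (fun _ => 1) 0
  T_unique : ∀ {γ : ℝ → G} {X Y : E}, T γ X → T γ Y → X = Y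
  T_mul : ∀ {γ δ : ℝ → G} {X Y : E}, T γ X → T δ Y → T (fun t => γ t * δ t) (X + Y)
  T_inv : ∀ {γ : ℝ → G} {X : E}, T γ X → T (fun t => (γ t)⁻¹) (-X)
  T_comp : ∀ {γ : ℝ → G} {X : E} {u : ℝ → ℝ} {a : ℝ}, T γ X → u 0 = 0 → HasDerivAt u a 0 →
    T (fun t => γ (u t)) (a • X)
  /-- the one-parameter subgroup with velocity `X` -/
  c : E → ℝ → G
  c_cont : ∀ X, Continuous (c X)
  c_add : ∀ X s t, c X (s + t) = c X s * c X t
  c_T : ∀ X, T (c X) X
  c_unique : ∀ (X : E) (γ : ℝ → G), (∀ s t, γ (s + t) = γ s * γ t) → T γ X → γ = c X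
  /-- the adjoint representation -/
  Ad : G → E →ₗ[ℝ] E
  T_conj : ∀ (g : G) {γ : ℝ → G} {X : E}, T γ X → T (fun t => g * γ t * g⁻¹) (Ad g X)
  /-- the Lie bracket -/
  ad : E →ₗ[ℝ] E →ₗ[ℝ] E
  ad_deriv : ∀ X Y, HasDerivAt (fun t => Ad (c X t) Y) (ad X Y) 0
  open_prod : ∀ {n : ℕ} (X : Fin n → E), Submodule.span ℝ (Set.range X) = ⊤ → ∀ δ : ℝ, 0 < δ →
    {g : G | ∃ t : Fin n → ℝ, (∀ i, |t i| < δ) ∧
      g = (List.ofFn fun i => c (X i) (t i)).prod} ∈ 𝓝 (1 : G)

/-- The bracket `B` makes the vector space `E` a nilpotent Lie algebra. -/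
structure NilLie {E : Type*} [AddCommGroup E] [Module ℝ E] (B : E →ₗ[ℝ] E →ₗ[ℝ] E) : Prop where
  self : ∀ x, B x x = 0
  jacobi : ∀ x y z, B x (B y z) = B (B x y) z + B y (B x z)
  nil : ∃ n : ℕ, ∀ l : List E, l.length = n → (l.map fun x => (B x : Module.End ℝ E)).prod = 0

/-- strictly upper triangular matrices -/
def SUp {N : ℕ} (M : Matrix (Fin N) (Fin N) ℝ) : Prop := ∀ i j, j ≤ i → M i j = 0

/-- A faithful representation of the Lie algebra `(E, B)` by strictly upper triangular matrices. -/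
structure NilRep {E : Type*} [AddCommGroup E] [Module ℝ E] (B : E →ₗ[ℝ] E →ₗ[ℝ] E) (N : ℕ) where
  /-- the representation -/
  ρ : E →ₗ[ℝ] Matrix (Fin N) (Fin N) ℝ
  inj : Function.Injective ρ
  sup : ∀ x, SUp (ρ x)
  br : ∀ x y, ρ (B x y) = ρ x * ρ y - ρ y * ρ x

/-- An extension of a faithful representation by a matrix `M` inducing the derivation `D`. -/
structure NilRepD {E : Type*} [AddCommGroup E] [Module ℝ E] (B : E →ₗ[ℝ] E →ₗ[ℝ] E)
    (D : E →ₗ[ℝ] E) (N : ℕ) extends NilRep B N where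
  /-- the matrix of the derivation -/
  M : Matrix (Fin N) (Fin N) ℝ
  supM : SUp M
  der : ∀ x, ρ (D x) = M * ρ x - ρ x * M
  indep : ∀ (x : E) (a : ℝ), ρ x = a • M → a = 0

end Pool.Agent.TH91.LG

namespace Pool.Agent.TH91.LG

/-- The adjoint representation computed in the chart. -/
noncomputable def LocLie.Ad {G : Type*} [Group G] [TopologicalSpace G] {E : Type*}
    [NormedAddCommGroup E] [NormedSpace ℝ E] (L : LocLie G E) (g : G) : E →L[ℝ] E :=
  fderiv ℝ (fun x : E => L.e (g * L.e.symm x * g⁻¹)) 0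

/-- The exponential of a nilpotent endomorphism of a finite dimensional real space. -/
noncomputable def fexp {E : Type*} [AddCommGroup E] [Module ℝ E] (A : Module.End ℝ E) :
    Module.End ℝ E :=
  ∑ k ∈ Finset.range (Module.finrank ℝ E + 1), ((k.factorial : ℝ)⁻¹) • A ^ k

end Pool.Agent.TH91.LG
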