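import Pool.Agent.TH91.LG.B4
import Pool.Agent.TH959.J1254
import Pool.Agent.TH817.J1255
import Pool.Agent.TH111.J1256
import Pool.Agent.TH113.J1257
import Pool.Agent.TH554.J1258
import Pool.Agent.TH699.J1259
import Pool.Agent.TH558.J1262
import Pool.Agent.TH429.J1263
import Pool.Agent.TH429.J1264
import Pool.Agent.TH515.J1261

/-!
# Assembly: Lie structure of a Lie group, and strictly upper triangular representations
-/

set_option autoImplicit false

namespace Pool.Agent.TH91.LG

open Topology Filter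
open scoped ContDiff Manifold

/-- the structure from the chart -/
theorem LocLie.exists_lieStr {G : Type*} [Group G] [TopologicalSpace G] [IsTopologicalGroup G]
    {E : Type*} [NormedAddCommGroup E] [NormedSpace ℝ E] [FiniteDimensional ℝ E]
    (L : LocLie G E) : Nonempty (LieStr G E) := by
  choose c hc hadd hT using L.exists_one_param
  obtain ⟨ad, had⟩ := L.exists_ad
  exact ⟨{
    T := L.T
    T_one := L.T_one
    T_unique := L.T_unique
    T_mul := L.T_mul
    T_inv := L.T_inv
    T_comp := L.T_comp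
    c := c
    c_cont := hc
    c_add := hadd
    c_T := hT
    c_unique := fun X γ h hγ => L.one_param_unique h (hadd X) hγ (hT X)
    Ad := fun g => (L.Ad g : E →ₗ[ℝ] E)
    T_conj := fun g _ _ h => L.T_conj g h
    ad := ad
    ad_deriv := fun X Y => had (c X) X Y (hT X)
    open_prod := fun X hX δ hδ => L.open_prod X hX (fun i => c (X i)) (fun i => hc (X i))
      (fun i => hadd (X i)) (fun i => hT (X i)) δ hδ }⟩

/-- every nilpotent Lie algebra is linear and strictly upper triangular, in all universes -/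
theorem exists_nilRep_univ (E : Type*) [NormedAddCommGroup E] [NormedSpace ℝ E]
    [FiniteDimensional ℝ E] (B : E →ₗ[ℝ] E →ₗ[ℝ] E) (hB : NilLie B) :
    ∃ N : ℕ, Nonempty (NilRep B N) := by
  have e : E ≃ₗ[ℝ] (Fin (Module.finrank ℝ E) → ℝ) := (Module.finBasis ℝ E).equivFun
  set F := Fin (Module.finrank ℝ E) → ℝ with hF
  set B' : F →ₗ[ℝ] F →ₗ[ℝ] F :=
    LinearMap.mk₂ ℝ (fun x y => e (B (e.symm x) (e.symm y)))
      (fun x x' y => by simp) (fun a x y => by simp) (fun x y y' => by simp)
      (fun a x y => by simp) with hB'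
  have hb : ∀ x y, B' x y = e (B (e.symm x) (e.symm y)) := fun x y => rfl
  have h : NilLie B' := by
    refine ⟨fun x => ?_, fun x y z => ?_, ?_⟩
    · rw [hb, hB.self, map_zero]
    · simp only [hb, LinearEquiv.symm_apply_apply]
      rw [hB.jacobi, map_add]
    · obtain ⟨n, hn⟩ := hB.nil
      refine ⟨n, fun l hl => ?_⟩
      have h1 : ∀ l : List F, ∀ x : F, (l.map fun x => (B' x : Module.End ℝ F)).prod x =
          e (((l.map e.symm).map fun x => (B x : Module.End ℝ E)).prod (e.symm x)) := by
        intro l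
        induction l with
        | nil => intro x; simp
        | cons a l ih =>
          intro x
          rw [List.map_cons, List.prod_cons, Module.End.mul_apply, ih, List.map_cons,
            List.map_cons, List.prod_cons, Module.End.mul_apply, hb, LinearEquiv.symm_apply_apply]
      refine LinearMap.ext fun x => ?_
      rw [h1, hn (l.map e.symm) (by rw [List.length_map, hl])]
      simp
  obtain ⟨N, ⟨R⟩⟩ := exists_nilRep (fun E _ _ _ B hB N R D hD hder => R.extend hB D hD hder) F B' h
  refine ⟨N, ⟨⟨R.ρ ∘ₗ (e : E →ₗ[ℝ] F), fun x y hxy => ?_, fun x => R.sup _, fun x y => ?_⟩⟩⟩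
  · exact e.injective (R.inj hxy)
  · have h1 := R.br (e x) (e y)
    rw [hb, LinearEquiv.symm_apply_apply, LinearEquiv.symm_apply_apply] at h1
    exact h1

/-- every element of a nilpotent Lie group is in the image of a continuous open homomorphism from
a group of upper unitriangular real matrices -/
theorem lie_model {E : Type*} [NormedAddCommGroup E] [NormedSpace ℝ E] [FiniteDimensional ℝ E]
    {G : Type*} [TopologicalSpace G] [ChartedSpace E G] [Group G] [LieGroup 𝓘(ℝ, E) ∞ G]
    [Group.IsNilpotent G] (g : G) :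
    ∃ (N : ℕ) (H : Subgroup (Matrix (Fin N) (Fin N) ℝ)ˣ) (φ : H →* G),
      (∀ h ∈ H, (∀ i, (h : Matrix (Fin N) (Fin N) ℝ) i i = 1) ∧
        ∀ i j, j < i → (h : Matrix (Fin N) (Fin N) ℝ) i j = 0) ∧
      Continuous φ ∧ IsOpenMap φ ∧ g ∈ Set.range φ := by
  have htop : IsTopologicalGroup G := topologicalGroup_of_lieGroup 𝓘(ℝ, E) ∞
  obtain ⟨L0⟩ := Pool.Agent.TH959.J1254.exists_locLie E G
  obtain ⟨L⟩ := L0.exists_lieStr
  have hB : NilLie L.ad := L.nilLie
  obtain ⟨N0, ⟨R0⟩⟩ := exists_nilRep_univ E L.ad hB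
  obtain ⟨D, hD1, hD2, hD3⟩ := Pool.Agent.TH558.J1262.log_aut L.ad (L.Ad g) (L.Ad_nil g)
    (fun x y => L.Ad_ad g x y)
  obtain ⟨N, ⟨R⟩⟩ := R0.extend hB D hD1 hD2
  have hf := hom_facts L (fun g X t => L.conj_c g X t) (fun a X t => L.c_smul a X t)
    (fun X t => L.Ad_c X t) hB R.toNilRep
  exact ⟨N, model_of_facts L g (fun g X t => L.conj_c g X t) (fun a X t => L.c_smul a X t) D hD1 hD3
    R hf.1 hf.2.1 hf.2.2⟩

end Pool.Agent.TH91.LG
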