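import Pool.Agent.TH73.J887
import Pool.Agent.TH91.LG.Defs

set_option autoImplicit false

namespace Pool.Agent.TH91.LG

open Topology Filter Finset Pool.Agent.TH91.RF Pool.Agent.TH91.NB.J887
open scoped Matrix.Norms.Operator

variable {N : ℕ}

theorem Ex_hasDerivAt (hN : 1 ≤ N) {w : ℝ → Matrix (Fin N) (Fin N) ℝ}
    {x : Matrix (Fin N) (Fin N) ℝ} (h0 : w 0 = 0) (hw : HasDerivAt w x 0) :
    HasDerivAt (fun s => Ex N (w s)) x 0 := by
  unfold Ex
  have h : HasDerivAt (fun s => ∑ i ∈ range (N + 1), (i.factorial : ℚ)⁻¹ • (w s) ^ i)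
      (∑ i ∈ range (N + 1), if i = 1 then x else 0) 0 := by
    refine HasDerivAt.fun_sum fun i _ => ?_
    have h1 : ∀ q : ℚ, ∀ M : Matrix (Fin N) (Fin N) ℝ, q • M = (q : ℝ) • M := by
      intro q M
      rw [Rat.cast_smul_eq_qsmul]
    simp_rw [h1]
    rcases Nat.lt_trichotomy i 1 with hi | hi | hi
    · obtain rfl : i = 0 := by omega
      simp only [pow_zero]
      rw [if_neg (by norm_num)]
      exact hasDerivAt_const _ _
    · subst hi
      rw [if_pos rfl]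
      have e : (fun s => (((((1 : ℕ).factorial : ℚ)⁻¹ : ℚ)) : ℝ) • (w s) ^ 1) = w := by
        funext s
        simp
      rw [e]
      exact hw
    · obtain ⟨j, rfl⟩ := Nat.exists_eq_add_of_le hi
      rw [if_neg (by omega)]
      have e : (fun s => (((((Nat.succ 1) + j).factorial : ℚ)⁻¹ : ℚ) : ℝ) • (w s) ^ (Nat.succ 1 + j)) =
          fun s => (((((Nat.succ 1) + j).factorial : ℚ)⁻¹ : ℚ) : ℝ) • (w s * ((w s) * (w s) ^ j)) := by
        funext s
        congr 1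
        rw [← pow_succ', ← pow_succ']
        congr 1
        omega
      rw [e]
      have h2 : HasDerivAt (fun s => (w s) ^ j) (∑ i ∈ range j, w 0 ^ (j.pred - i) * x * w 0 ^ i)
        0 := hw.pow' j
      have h3 := (hw.mul (hw.mul h2)).const_smul
        (((((Nat.succ 1) + j).factorial : ℚ)⁻¹ : ℚ) : ℝ)
      refine h3.congr_deriv ?_
      simp [h0]
  rw [sum_ite_eq' (range (N + 1)) 1 (fun _ => x), if_pos (by rw [mem_range]; omega)] at h
  exact h

theorem Ex_zero : Ex N (0 : Matrix (Fin N) (Fin N) ℝ) = 1 := by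
  unfold Ex
  rw [sum_range_succ', sum_eq_zero]
  · simp
  · intro i _
    simp

theorem Lg_one (k : ℕ) : Lg N k (1 : Matrix (Fin N) (Fin N) ℝ) = 0 := by
  induction k with
  | zero => rfl
  | succ k ih =>
    show Lg N k 1 + (1 - Ex N (Lg N k 1)) = 0
    rw [ih, Ex_zero]
    simp

theorem Lg_hasDerivAt (hN : 1 ≤ N) {w : ℝ → Matrix (Fin N) (Fin N) ℝ}
    {x : Matrix (Fin N) (Fin N) ℝ} (h0 : w 0 = 1) (hw : HasDerivAt w x 0) (k : ℕ) :
    HasDerivAt (fun s => Lg N (k + 1) (w s)) x 0 := by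
  have key : ∀ k, ∃ y, HasDerivAt (fun s => Lg N k (w s)) y 0 := by
    intro k
    induction k with
    | zero => exact ⟨0, hasDerivAt_const _ _⟩
    | succ k ih =>
      obtain ⟨y, hy⟩ := ih
      have h1 := Ex_hasDerivAt hN (w := fun s => Lg N k (w s)) (by
        show Lg N k (w 0) = 0
        rw [h0, Lg_one]) hy
      exact ⟨_, hy.add (hw.sub h1)⟩
  obtain ⟨y, hy⟩ := key k
  have h1 := Ex_hasDerivAt hN (w := fun s => Lg N k (w s)) (by
    show Lg N k (w 0) = 0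
    rw [h0, Lg_one]) hy
  refine (hy.add (hw.sub h1)).congr_deriv ?_
  abel

theorem mul_hasDerivAt {u v : ℝ → Matrix (Fin N) (Fin N) ℝ} {x y : Matrix (Fin N) (Fin N) ℝ}
    (hu0 : u 0 = 1) (hv0 : v 0 = 1) (hu : HasDerivAt u x 0) (hv : HasDerivAt v y 0) :
    HasDerivAt (fun s => u s * v s) (x + y) 0 := by
  refine (HasDerivAt.mul hu hv).congr_deriv ?_
  rw [hu0, hv0]
  simp

theorem lin_hasDerivAt {E F : Type*} [NormedAddCommGroup E] [NormedSpace ℝ E]
    [NormedAddCommGroup F] [NormedSpace ℝ F] [FiniteDimensional ℝ E]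
    (f : E →ₗ[ℝ] F) {u : ℝ → E} {x : E} (hu : HasDerivAt u x 0) :
    HasDerivAt (fun s => f (u s)) (f x) 0 :=
  (LinearMap.toContinuousLinearMap f).hasFDerivAt.comp_hasDerivAt (0 : ℝ) hu

theorem lin_hasDerivAt_to {E : Type*} [NormedAddCommGroup E] [NormedSpace ℝ E]
    [FiniteDimensional ℝ E] (f : E →ₗ[ℝ] Matrix (Fin N) (Fin N) ℝ) {u : ℝ → E} {x : E}
    (hu : HasDerivAt u x 0) : HasDerivAt (fun s => f (u s)) (f x) 0 :=
  lin_hasDerivAt f hu

theorem lin_hasDerivAt_from {E : Type*} [NormedAddCommGroup E] [NormedSpace ℝ E]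
    (f : Matrix (Fin N) (Fin N) ℝ →ₗ[ℝ] E) {u : ℝ → Matrix (Fin N) (Fin N) ℝ}
    {x : Matrix (Fin N) (Fin N) ℝ}
    (hu : HasDerivAt u x 0) : HasDerivAt (fun s => f (u s)) (f x) 0 :=
  lin_hasDerivAt f hu

theorem V_hasDerivAt (hN : 1 ≤ N) {E : Type*} [NormedAddCommGroup E] [NormedSpace ℝ E]
    [FiniteDimensional ℝ E] (f : E →ₗ[ℝ] Matrix (Fin N) (Fin N) ℝ)
    (g : Matrix (Fin N) (Fin N) ℝ →ₗ[ℝ] E) {u v : ℝ → E} {x y : E} (hu0 : u 0 = 0) (hv0 : v 0 = 0)
    (hu : HasDerivAt u x 0) (hv : HasDerivAt v y 0) :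
    HasDerivAt (fun s => g (Lg N N (Ex N (f (u s)) * Ex N (f (v s))))) (g (f x + f y)) 0 := by
  obtain ⟨k, rfl⟩ := Nat.exists_eq_add_of_le hN
  have h1 := Ex_hasDerivAt hN (w := fun s => f (u s)) (by
    show f (u 0) = 0
    rw [hu0, map_zero]) (lin_hasDerivAt_to f hu)
  have h2 := Ex_hasDerivAt hN (w := fun s => f (v s)) (by
    show f (v 0) = 0
    rw [hv0, map_zero]) (lin_hasDerivAt_to f hv)
  have e1 : Ex (1 + k) (f (u 0)) = 1 := by rw [hu0, map_zero, Ex_zero]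
  have e2 : Ex (1 + k) (f (v 0)) = 1 := by rw [hv0, map_zero, Ex_zero]
  have h3 := mul_hasDerivAt e1 e2 h1 h2
  have h4 := Lg_hasDerivAt hN (by
    show Ex (1 + k) (f (u 0)) * Ex (1 + k) (f (v 0)) = 1
    rw [e1, e2, one_mul]) h3 k
  have h5 := lin_hasDerivAt_from g h4
  have e : 1 + k = k + 1 := by omega
  have e3 : Lg (1 + k) (1 + k) = Lg (1 + k) (k + 1) := by
    congr 1
  rw [e3]
  exact h5

theorem V_continuous {E : Type*} [NormedAddCommGroup E] [NormedSpace ℝ E]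
    [FiniteDimensional ℝ E] (f : E →ₗ[ℝ] Matrix (Fin N) (Fin N) ℝ)
    (g : Matrix (Fin N) (Fin N) ℝ →ₗ[ℝ] E) {u v : E → E} (hu : Continuous u) (hv : Continuous v) :
    Continuous (fun s => g (Lg N N (Ex N (f (u s)) * Ex N (f (v s))))) := by
  have hf : Continuous f := LinearMap.continuous_of_finiteDimensional f
  have hg : Continuous g := LinearMap.continuous_of_finiteDimensional g
  exact hg.comp ((Lg_continuous N).comp
    ((Ex_continuous.comp (hf.comp hu)).mul (Ex_continuous.comp (hf.comp hv))))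

end Pool.Agent.TH91.LG
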