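import Pool.Agent.TH91.LG.B1

set_option autoImplicit false

namespace Pool.Agent.TH91.LG

open Topology Filter Finset Pool.Agent.TH91.RF Pool.Agent.TH91.NB.J887

variable {N : ℕ} {E : Type*} [NormedAddCommGroup E] [NormedSpace ℝ E]
  {B : E →ₗ[ℝ] E →ₗ[ℝ] E} (R : NilRep B N)

namespace NilRep

theorem mem1 (x : E) : R.ρ x ∈ (matFiltR N).F 1 := sup_iff.1 (R.sup x)

theorem nilp (x : E) : IsNilpotent (R.ρ x) := (matFiltR N).nilp (R.mem1 x)

theorem rat_smul (q : ℚ) (x : Matrix (Fin N) (Fin N) ℝ) : q • x = (q : ℝ) • x := by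
  rw [Rat.cast_smul_eq_qsmul]

theorem exp_inj {x y : E} (h : IsNilpotent.exp (R.ρ x) = IsNilpotent.exp (R.ρ y)) : x = y :=
  R.inj ((matFiltR N).exp_inj (R.mem1 x) (R.mem1 y) h)

theorem lat {W : Submodule ℝ E} (hW : ∀ x ∈ W, ∀ y ∈ W, B x y ∈ W) :
    LieLat (matFiltR N) (W.map R.ρ).toAddSubgroup := by
  constructor
  · rintro _ ⟨x, _, rfl⟩
    exact R.mem1 x
  · rintro _ ⟨x, hx, rfl⟩ _ ⟨y, hy, rfl⟩
    rw [rat_smul, ← R.br, ← map_smul]
    exact ⟨_, W.smul_mem _ (hW x hx y hy), rfl⟩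

theorem idl {W J : Submodule ℝ E} (h1 : J ≤ W) (h2 : ∀ x ∈ W, ∀ y ∈ J, B x y ∈ J) :
    LieIdl N (W.map R.ρ).toAddSubgroup (J.map R.ρ).toAddSubgroup := by
  constructor
  · rintro _ ⟨x, hx, rfl⟩
    exact ⟨x, h1 hx, rfl⟩
  · rintro _ ⟨x, hx, rfl⟩ _ ⟨y, hy, rfl⟩
    rw [rat_smul, ← R.br, ← map_smul]
    exact ⟨_, J.smul_mem _ (h2 x hx y hy), rfl⟩

theorem exp_add {W J : Submodule ℝ E} (hW : ∀ x ∈ W, ∀ y ∈ W, B x y ∈ W) (h1 : J ≤ W)
    (h2 : ∀ x ∈ W, ∀ y ∈ J, B x y ∈ J) {x y : E} (hx : x ∈ W) (hy : y ∈ W) (h : B x y ∈ J) :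
    ∃ j ∈ J, IsNilpotent.exp (R.ρ x) * IsNilpotent.exp (R.ρ y) =
      IsNilpotent.exp (R.ρ (x + y + j)) := by
  obtain ⟨_, ⟨j, hj, rfl⟩, h3⟩ := (R.lat hW).exp_mul_add (R.idl h1 h2)
    (x := R.ρ x) (y := R.ρ y) ⟨x, hx, rfl⟩ ⟨y, hy, rfl⟩ (by
      rw [rat_smul, ← R.br, ← map_smul]
      exact ⟨_, J.smul_mem _ h, rfl⟩)
  refine ⟨j, hj, ?_⟩
  rw [h3, map_add, map_add]

theorem exp_mul (x y : E) : ∃ z : E, IsNilpotent.exp (R.ρ x) * IsNilpotent.exp (R.ρ y) =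
      IsNilpotent.exp (R.ρ z) := by
  obtain ⟨j, _, h⟩ := R.exp_add (W := ⊤) (J := ⊤) (fun _ _ _ _ => trivial) le_rfl
    (fun _ _ _ _ => trivial) (x := x) (y := y) trivial trivial trivial
  exact ⟨_, h⟩

theorem adr_iter (w x : E) (k : ℕ) : (adr (-R.ρ w))^[k] (R.ρ x) = R.ρ (((B w : Module.End ℝ E) ^ k) x) := by
  induction k with
  | zero => rfl
  | succ k ih =>
    rw [Function.iterate_succ_apply', ih, pow_succ', Module.End.mul_apply, R.br]
    unfold adr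
    noncomm_ring

theorem exp_conj [FiniteDimensional ℝ E] (hB : ∀ w, IsNilpotent (B w : Module.End ℝ E)) (w x : E) :
    IsNilpotent.exp (R.ρ w) * IsNilpotent.exp (R.ρ x) * IsNilpotent.exp (-R.ρ w) =
      IsNilpotent.exp (R.ρ (fexp (B w) x)) := by
  have hlat := R.lat (W := ⊤) (fun _ _ _ _ => trivial)
  rw [hlat.exp_conj_eq (w := R.ρ w) (x := R.ρ x) ⟨w, trivial, rfl⟩ ⟨x, trivial, rfl⟩]
  congr 1
  unfold fexp
  rw [LinearMap.sum_apply, map_sum]
  have e1 : ∀ k, ((k.factorial : ℚ))⁻¹ • (adr (-R.ρ w))^[k] (R.ρ x) =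
      R.ρ (((k.factorial : ℝ)⁻¹ • (B w : Module.End ℝ E) ^ k) x) := by
    intro k
    rw [R.adr_iter, rat_smul, LinearMap.smul_apply, map_smul]
    push_cast
    rfl
  simp_rw [e1]
  have e2 : ∀ k, Module.finrank ℝ E + 1 ≤ k →
      R.ρ (((k.factorial : ℝ)⁻¹ • (B w : Module.End ℝ E) ^ k) x) = 0 := by
    intro k hk
    have h1 : (B w : Module.End ℝ E) ^ (Module.finrank ℝ E) = 0 := by
      have h2 := LinearMap.aeval_self_charpoly (B w : Module.End ℝ E)
      rw [(LinearMap.charpoly_eq_X_pow_iff (B w : Module.End ℝ E)).2 (fun m => by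
        obtain ⟨n, hn⟩ := hB w
        exact ⟨n, by rw [hn]; rfl⟩)] at h2
      simpa using h2
    have h3 : (B w : Module.End ℝ E) ^ k = 0 := pow_eq_zero_of_le (by omega) h1
    rw [h3, smul_zero, LinearMap.zero_apply, map_zero]
  have e3 : ∀ k, N + 1 ≤ k →
      R.ρ (((k.factorial : ℝ)⁻¹ • (B w : Module.End ℝ E) ^ k) x) = 0 := by
    intro k hk
    rw [← e1]
    have h1 : (adr (-R.ρ w))^[k] (R.ρ x) ∈ (matFiltR N).F (1 + k) :=
      (matFiltR N).adr_iter_mem (Submodule.neg_mem _ (R.mem1 w)) (R.mem1 x) k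
    rw [(matFiltR N).eq_zero_of_le (by omega) h1, smul_zero]
  rcases le_total N (Module.finrank ℝ E) with h | h
  · refine sum_subset (range_mono (by omega)) fun k _ hk => e3 k ?_
    rw [mem_range] at hk
    omega
  · refine (sum_subset (range_mono (by omega)) fun k _ hk => e2 k ?_).symm
    rw [mem_range] at hk
    omega

end NilRep

theorem NilLie.nilp (hB : NilLie B) (w : E) : IsNilpotent (B w : Module.End ℝ E) := by
  obtain ⟨n, hn⟩ := hB.nil
  refine ⟨n, ?_⟩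
  have h := hn (List.replicate n w) (List.length_replicate)
  rwa [List.map_replicate, List.prod_replicate] at h

theorem NilLie.skew (hB : NilLie B) (x y : E) : B x y = - B y x := by
  have h := hB.self (x + y)
  simp only [map_add, LinearMap.add_apply, hB.self, zero_add, add_zero] at h
  exact eq_neg_of_add_eq_zero_right h

/-- the next element of the chain -/
theorem NilLie.exists_next (hB : NilLie B) {W : Submodule ℝ E} (hW : W ≠ ⊤) :
    ∃ z, z ∉ W ∧ ∀ x ∈ W, B z x ∈ W := by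
  by_contra hcon
  push Not at hcon
  obtain ⟨n, hn⟩ := hB.nil
  obtain ⟨z, hz⟩ : ∃ z, z ∉ W := by
    by_contra h
    push Not at h
    exact hW (eq_top_iff.2 fun x _ => h x)
  have key : ∀ k, ∃ l : List E, l.length = k ∧
      (l.map fun x => (B x : Module.End ℝ E)).prod z ∉ W := by
    intro k
    induction k with
    | zero => exact ⟨[], rfl, by simpa using hz⟩
    | succ k ih =>
      obtain ⟨l, hl, h⟩ := ih
      obtain ⟨x, _, hx⟩ := hcon _ h
      refine ⟨x :: l, by simp [hl], ?_⟩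
      rw [List.map_cons, List.prod_cons, Module.End.mul_apply, hB.skew]
      intro h2
      exact hx (by simpa using W.neg_mem h2)
  obtain ⟨l, hl, h⟩ := key n
  rw [hn l hl] at h
  exact h W.zero_mem

end Pool.Agent.TH91.LG
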