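import Pool.Agent.TH91.LG.B2

set_option autoImplicit false

namespace Pool.Agent.TH91.LG

open Topology Filter Finset Pool.Agent.TH91.RF Pool.Agent.TH91.NB.J887

variable {N : ℕ} {G : Type*} [Group G] [TopologicalSpace G] [IsTopologicalGroup G] {E : Type*}
    [NormedAddCommGroup E] [NormedSpace ℝ E] [FiniteDimensional ℝ E] (L : LieStr G E)
    (R : NilRep L.ad N)

/-- the exponential map is a homomorphism on the subalgebra `W` -/
structure HomOn (W : Submodule ℝ E) : Prop where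
  cl : ∀ x ∈ W, ∀ y ∈ W, L.ad x y ∈ W
  hom : ∀ X ∈ W, ∀ Y ∈ W, ∀ Z ∈ W, IsNilpotent.exp (R.ρ X) * IsNilpotent.exp (R.ρ Y) =
    IsNilpotent.exp (R.ρ Z) → L.c X 1 * L.c Y 1 = L.c Z 1
  vel : ∀ w : ℝ → E, (∀ s, w s ∈ W) → w 0 = 0 → ∀ X, HasDerivAt w X 0 →
    L.T (fun t => L.c (w t) 1) X
  cont : ContinuousOn (fun X => L.c X 1) (W : Set E)

theorem c_zero (hsmul : ∀ (a : ℝ) (X : E) (t : ℝ), L.c (a • X) t = L.c X (a * t)) (t : ℝ) :
    L.c 0 t = 1 := by
  have h0 : ∀ X, L.c X 0 = 1 := by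
    intro X
    have h := L.c_add X 0 0
    rw [add_zero] at h
    exact (mul_eq_left.1 h.symm)
  have h := hsmul 0 0 t
  rw [zero_smul, zero_mul, h0] at h
  exact h

theorem homOn_bot (hsmul : ∀ (a : ℝ) (X : E) (t : ℝ), L.c (a • X) t = L.c X (a * t)) :
    HomOn L R ⊥ := by
  refine ⟨?_, ?_, ?_, ?_⟩
  · intro x hx y hy
    rw [Submodule.mem_bot] at hx hy ⊢
    rw [hx, map_zero, LinearMap.zero_apply]
  · intro X hX Y hY Z hZ _
    rw [Submodule.mem_bot] at hX hY hZ
    rw [hX, hY, hZ, c_zero L hsmul, one_mul]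
  · intro w hw h0 X hX
    have h1 : w = fun _ => 0 := by
      funext s
      have := hw s
      rwa [Submodule.mem_bot] at this
    have h2 : X = 0 := by
      rw [h1] at hX
      exact hX.unique (hasDerivAt_const _ _)
    rw [h1, h2]
    simp only [c_zero L hsmul]
    exact L.T_one
  · have h : ((⊥ : Submodule ℝ E) : Set E) = {0} := rfl
    rw [h]
    exact continuousOn_singleton _ _

end Pool.Agent.TH91.LG
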