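import Pool.Agent.TH91.LG.B3

set_option autoImplicit false

namespace Pool.Agent.TH91.LG

open Topology Filter Finset Pool.Agent.TH91.RF Pool.Agent.TH91.NB.J887

variable {N : ℕ} {G : Type*} [Group G] [TopologicalSpace G] [IsTopologicalGroup G] {E : Type*}
    [NormedAddCommGroup E] [NormedSpace ℝ E] [FiniteDimensional ℝ E] (L : LieStr G E)
    (R : NilRep L.ad N)

section step

variable {W : Submodule ℝ E} (hW : HomOn L R W) {z : E} (hz : ∀ x ∈ W, L.ad z x ∈ W)
  {τ : E →ₗ[ℝ] ℝ} (hτz : τ z = 1) (hτW : ∀ x ∈ W, τ x = 0)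
  {π : Matrix (Fin N) (Fin N) ℝ →ₗ[ℝ] E} (hπ : ∀ x, π (R.ρ x) = x)

/-- the second coordinate -/
noncomputable def V (R : NilRep L.ad N) (z : E) (τ : E →ₗ[ℝ] ℝ)
    (π : Matrix (Fin N) (Fin N) ℝ →ₗ[ℝ] E) (x : E) : E :=
  π (Lg N N (Ex N (R.ρ (-(τ x) • z)) * Ex N (R.ρ x)))

theorem V_cont (R : NilRep L.ad N) (z : E) (τ : E →ₗ[ℝ] ℝ)
    (π : Matrix (Fin N) (Fin N) ℝ →ₗ[ℝ] E) : Continuous (V L R z τ π) := by
  have hτ : Continuous τ := LinearMap.continuous_of_finiteDimensional τ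
  exact V_continuous (N := N) R.ρ π (hτ.neg.smul continuous_const) continuous_id

theorem Ex_eq (x : E) : Ex N (R.ρ x) = IsNilpotent.exp (R.ρ x) :=
  ((matFiltR N).exp_eq (R.mem1 x)).symm

variable (hnil : NilLie L.ad)

include hW hz hτz hτW hπ hnil in
/-- brackets of elements of the extended algebra -/
theorem br_mem {x y : E} (hx : x ∈ W ⊔ Submodule.span ℝ {z}) (hy : y ∈ W ⊔ Submodule.span ℝ {z}) :
    L.ad x y ∈ W := by
  obtain ⟨x0, hx0, _, hx1, rfl⟩ := Submodule.mem_sup.1 hx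
  obtain ⟨y0, hy0, _, hy1, rfl⟩ := Submodule.mem_sup.1 hy
  obtain ⟨a, rfl⟩ := Submodule.mem_span_singleton.1 hx1
  obtain ⟨b, rfl⟩ := Submodule.mem_span_singleton.1 hy1
  simp only [map_add, LinearMap.add_apply, map_smul, LinearMap.smul_apply, hnil.self, smul_zero,
    add_zero]
  rw [hnil.skew x0 z]
  exact W.add_mem (W.add_mem (hW.cl _ hx0 _ hy0) (W.smul_mem _ (hz _ hy0)))
    (W.smul_mem _ (W.neg_mem (hz _ hx0)))

include hτz hτW in
theorem sub_mem {x : E} (hx : x ∈ W ⊔ Submodule.span ℝ {z}) : x - τ x • z ∈ W := by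
  obtain ⟨x0, hx0, _, hx1, rfl⟩ := Submodule.mem_sup.1 hx
  obtain ⟨a, rfl⟩ := Submodule.mem_span_singleton.1 hx1
  rw [map_add, map_smul, hτz, hτW x0 hx0]
  simpa using hx0

include hW hz hτz hτW hπ hnil in
theorem V_spec {x : E} (hx : x ∈ W ⊔ Submodule.span ℝ {z}) :
    V L R z τ π x ∈ W ∧ IsNilpotent.exp (R.ρ (-(τ x) • z)) * IsNilpotent.exp (R.ρ x) =
      IsNilpotent.exp (R.ρ (V L R z τ π x)) := by
  have hbr : ∀ x ∈ W ⊔ Submodule.span ℝ {z}, ∀ y ∈ W ⊔ Submodule.span ℝ {z}, L.ad x y ∈ W :=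
    fun x hx y hy => br_mem L R hW hz hτz hτW hπ hnil hx hy
  have hzW : z ∈ W ⊔ Submodule.span ℝ {z} :=
    Submodule.mem_sup_right (Submodule.mem_span_singleton_self z)
  obtain ⟨j, hj, h⟩ := R.exp_add (W := W ⊔ Submodule.span ℝ {z}) (J := W)
    (fun x hx y hy => Submodule.mem_sup_left (hbr x hx y hy)) le_sup_left
    (fun x hx y hy => hbr x hx y (Submodule.mem_sup_left hy)) (x := -(τ x) • z) (y := x)
    (Submodule.smul_mem _ _ hzW) hx (hbr _ (Submodule.smul_mem _ _ hzW) _ hx)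
  have e : V L R z τ π x = -(τ x) • z + x + j := by
    unfold V
    rw [Ex_eq, Ex_eq, h, Lg_exp (R.mem1 _), hπ]
  rw [e]
  refine ⟨?_, h⟩
  have h1 := sub_mem hτz hτW hx
  have e2 : -(τ x) • z + x + j = (x - τ x • z) + j := by
    rw [neg_smul]
    abel
  rw [e2]
  exact W.add_mem h1 hj

theorem exp_smul_cancel (a : ℝ) (x : E) :
    IsNilpotent.exp (R.ρ (a • x)) * IsNilpotent.exp (R.ρ (-a • x)) = 1 := by
  rw [neg_smul, map_neg]
  exact IsNilpotent.exp_mul_exp_neg_self (R.nilp _)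

theorem exp_line (a b : ℝ) (x : E) :
    IsNilpotent.exp (R.ρ (a • x)) * IsNilpotent.exp (R.ρ (b • x)) =
      IsNilpotent.exp (R.ρ ((a + b) • x)) := by
  rw [add_smul, map_add, IsNilpotent.exp_add_of_commute _ (R.nilp _) (R.nilp _)]
  rw [map_smul, map_smul]
  exact (Commute.refl _).smul_left _ |>.smul_right _

/-- the candidate -/
noncomputable def psi (R : NilRep L.ad N) (z : E) (τ : E →ₗ[ℝ] ℝ)
    (π : Matrix (Fin N) (Fin N) ℝ →ₗ[ℝ] E) (x : E) : G :=
  L.c z (τ x) * L.c (V L R z τ π x) 1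

variable
    (hconj : ∀ (g : G) (X : E) (t : ℝ), g * L.c X t * g⁻¹ = L.c (L.Ad g X) t)
    (hsmul : ∀ (a : ℝ) (X : E) (t : ℝ), L.c (a • X) t = L.c X (a * t))
    (hexp : ∀ (X : E) (t : ℝ), L.Ad (L.c X t) = fexp (t • (L.ad X : Module.End ℝ E)))

theorem fexp_mem {A : Module.End ℝ E} (hA : ∀ x ∈ W, A x ∈ W) {x : E} (hx : x ∈ W) :
    fexp A x ∈ W := by
  have h : ∀ k, (A ^ k) x ∈ W := by
    intro k
    induction k with
    | zero => simpa using hx
    | succ k ih =>
      rw [pow_succ', Module.End.mul_apply]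
      exact hA _ ih
  unfold fexp
  rw [LinearMap.sum_apply]
  exact Submodule.sum_mem _ fun k _ => Submodule.smul_mem _ _ (h k)

include hW hz hτz hτW hπ hnil hconj hexp in
theorem psi_mul {x y w : E} (hx : x ∈ W ⊔ Submodule.span ℝ {z})
    (hy : y ∈ W ⊔ Submodule.span ℝ {z}) (hw : w ∈ W ⊔ Submodule.span ℝ {z})
    (h : IsNilpotent.exp (R.ρ x) * IsNilpotent.exp (R.ρ y) = IsNilpotent.exp (R.ρ w)) :
    psi L R z τ π x * psi L R z τ π y = psi L R z τ π w := by
  have hbr : ∀ x ∈ W ⊔ Submodule.span ℝ {z}, ∀ y ∈ W ⊔ Submodule.span ℝ {z}, L.ad x y ∈ W :=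
    fun x hx y hy => br_mem L R hW hz hτz hτW hπ hnil hx hy
  obtain ⟨j, hj, h1⟩ := R.exp_add (W := W ⊔ Submodule.span ℝ {z}) (J := W)
    (fun x hx y hy => Submodule.mem_sup_left (hbr x hx y hy)) le_sup_left
    (fun x hx y hy => hbr x hx y (Submodule.mem_sup_left hy)) hx hy (hbr _ hx _ hy)
  have hwe : w = x + y + j := R.exp_inj (h.symm.trans h1)
  have hτ : τ w = τ x + τ y := by
    rw [hwe, map_add, map_add, hτW j hj, add_zero]
  obtain ⟨hvx, hx2⟩ := V_spec L R hW hz hτz hτW hπ hnil hx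
  obtain ⟨hvy, hy2⟩ := V_spec L R hW hz hτz hτW hπ hnil hy
  obtain ⟨hvw, hw2⟩ := V_spec L R hW hz hτz hτW hπ hnil hw
  set vx := V L R z τ π x with hvxd
  set vy := V L R z τ π y with hvyd
  set vw := V L R z τ π w with hvwd
  -- the conjugated element
  set u : E := fexp (-(τ y) • (L.ad z : Module.End ℝ E)) vx with hu
  have huW : u ∈ W := fexp_mem (fun x hx => by
    rw [LinearMap.smul_apply]
    exact W.smul_mem _ (hz x hx)) hvx
  have h2 : IsNilpotent.exp (R.ρ u) * IsNilpotent.exp (R.ρ vy) = IsNilpotent.exp (R.ρ vw) := by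
    have h3 := R.exp_conj hnil.nilp (-(τ y) • z) vx
    have e3 : (L.ad (-(τ y) • z) : Module.End ℝ E) = -(τ y) • (L.ad z : Module.End ℝ E) :=
      map_smul L.ad _ _
    rw [e3, ← hu] at h3
    rw [← h3, ← hx2, ← hy2, ← hw2, ← h, hτ]
    have h4 : IsNilpotent.exp (-R.ρ (-(τ y) • z)) * IsNilpotent.exp (R.ρ (-(τ y) • z)) = 1 :=
      IsNilpotent.exp_neg_mul_exp_self (R.nilp _)
    have h5 := exp_line L R (-(τ y)) (-(τ x)) z
    calc IsNilpotent.exp (R.ρ (-(τ y) • z)) * (IsNilpotent.exp (R.ρ (-(τ x) • z)) *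
          IsNilpotent.exp (R.ρ x)) * IsNilpotent.exp (-R.ρ (-(τ y) • z)) *
          (IsNilpotent.exp (R.ρ (-(τ y) • z)) * IsNilpotent.exp (R.ρ y)) =
          (IsNilpotent.exp (R.ρ (-(τ y) • z)) * IsNilpotent.exp (R.ρ (-(τ x) • z))) *
          IsNilpotent.exp (R.ρ x) * (IsNilpotent.exp (-R.ρ (-(τ y) • z)) *
          IsNilpotent.exp (R.ρ (-(τ y) • z))) * IsNilpotent.exp (R.ρ y) := by noncomm_ring
      _ = IsNilpotent.exp (R.ρ (-(τ x + τ y) • z)) * (IsNilpotent.exp (R.ρ x) *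
          IsNilpotent.exp (R.ρ y)) := by
        rw [h4, h5, mul_one, mul_assoc]
        congr 3
        ring_nf
  have h6 := hW.hom u huW vy hvy vw hvw h2
  have h7 : L.c u 1 = L.c z (-(τ y)) * L.c vx 1 * (L.c z (-(τ y)))⁻¹ := by
    rw [hconj, hexp, hu]
  have h8 : (L.c z (-(τ y)))⁻¹ = L.c z (τ y) := by
    have h9 : L.c z (-(τ y)) * L.c z (τ y) = 1 := by
      rw [← L.c_add, neg_add_cancel]
      have h := L.c_add z 0 0
      rw [add_zero] at h
      exact (mul_eq_left.1 h.symm)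
    exact inv_eq_of_mul_eq_one_right h9
  unfold psi
  rw [← hvxd, ← hvyd, ← hvwd, ← h6, h7, h8, hτ, L.c_add]
  have h9 : L.c z (-(τ y)) = (L.c z (τ y))⁻¹ := by rw [← h8, inv_inv]
  rw [h9]
  group

include hW hz hτz hτW hπ hnil hconj hexp in
theorem psi_eq (hN : 1 ≤ N) {x : E} (hx : x ∈ W ⊔ Submodule.span ℝ {z}) :
    psi L R z τ π x = L.c x 1 := by
  have hV0 : V L R z τ π 0 = 0 := by
    have h := (V_spec L R hW hz hτz hτW hπ hnil (x := 0) (Submodule.zero_mem _)).2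
    rw [map_zero, neg_zero, zero_smul, map_zero, IsNilpotent.exp_zero, one_mul] at h
    have h2 : IsNilpotent.exp (R.ρ 0) = IsNilpotent.exp (R.ρ (V L R z τ π 0)) := by
      rw [← h, map_zero, IsNilpotent.exp_zero]
    exact (R.exp_inj h2).symm
  have hmem : ∀ s : ℝ, s • x ∈ W ⊔ Submodule.span ℝ {z} := fun s => Submodule.smul_mem _ _ hx
  have hline : HasDerivAt (fun s : ℝ => s • x) x 0 := by
    have h := (hasDerivAt_id (0 : ℝ)).smul_const x
    simpa using h
  have hneg : HasDerivAt (fun s : ℝ => -(τ (s • x)) • z) (-(τ x) • z) 0 := by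
    have h := ((hasDerivAt_id (0 : ℝ)).mul_const (-(τ x))).smul_const z
    simpa using h
  have hV : HasDerivAt (fun s : ℝ => V L R z τ π (s • x)) (x - τ x • z) 0 := by
    have h := V_hasDerivAt hN R.ρ π (u := fun s : ℝ => -(τ (s • x)) • z) (v := fun s => s • x)
      (by simp) (by simp) hneg hline
    rw [← map_add, hπ] at h
    refine h.congr_deriv ?_
    rw [neg_smul]
    abel
  have hvel : L.T (fun s => psi L R z τ π (s • x)) x := by
    have h1 := L.T_comp (L.c_T z) (u := fun s => τ (s • x)) (a := τ x) (by simp) (by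
      have h := (hasDerivAt_id (0 : ℝ)).mul_const (τ x)
      simpa using h)
    have h2 := hW.vel (fun s => V L R z τ π (s • x))
      (fun s => (V_spec L R hW hz hτz hτW hπ hnil (hmem s)).1) (by
        show V L R z τ π ((0 : ℝ) • x) = 0
        rw [zero_smul, hV0]) _ hV
    have h3 := L.T_mul h1 h2
    have e : τ x • z + (x - τ x • z) = x := by abel
    rw [e] at h3
    exact h3
  have h4 := L.c_unique x _ (fun s t => (psi_mul L R hW hz hτz hτW hπ hnil hconj hexp
    (hmem s) (hmem t) (hmem (s + t)) (exp_line L R s t x)).symm) hvel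
  have h5 := congrFun h4 1
  simpa using h5

include hW hz hτz hτW hπ hnil hconj hexp in
theorem homOn_step (hN : 1 ≤ N) : HomOn L R (W ⊔ Submodule.span ℝ {z}) := by
  have hV0 : V L R z τ π 0 = 0 := by
    have h := (V_spec L R hW hz hτz hτW hπ hnil (x := 0) (Submodule.zero_mem _)).2
    rw [map_zero, neg_zero, zero_smul, map_zero, IsNilpotent.exp_zero, one_mul] at h
    have h2 : IsNilpotent.exp (R.ρ 0) = IsNilpotent.exp (R.ρ (V L R z τ π 0)) := by
      rw [← h, map_zero, IsNilpotent.exp_zero]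
    exact (R.exp_inj h2).symm
  have hψ : ∀ x ∈ W ⊔ Submodule.span ℝ {z}, psi L R z τ π x = L.c x 1 :=
    fun x hx => psi_eq L R hW hz hτz hτW hπ hnil hconj hexp hN hx
  refine ⟨?_, ?_, ?_, ?_⟩
  · intro x hx y hy
    exact Submodule.mem_sup_left (br_mem L R hW hz hτz hτW hπ hnil hx hy)
  · intro x hx y hy w hw h
    rw [← hψ x hx, ← hψ y hy, ← hψ w hw]
    exact psi_mul L R hW hz hτz hτW hπ hnil hconj hexp hx hy hw h
  · intro w hw h0 X hX
    have hτ : HasDerivAt (fun s => τ (w s)) (τ X) 0 := lin_hasDerivAt τ hX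
    have hneg : HasDerivAt (fun s : ℝ => -(τ (w s)) • z) (-(τ X) • z) 0 := hτ.neg.smul_const z
    have hV : HasDerivAt (fun s : ℝ => V L R z τ π (w s)) (X - τ X • z) 0 := by
      have h := V_hasDerivAt hN R.ρ π (u := fun s : ℝ => -(τ (w s)) • z) (v := w)
        (by simp [h0]) h0 hneg hX
      rw [← map_add, hπ] at h
      refine h.congr_deriv ?_
      rw [neg_smul]
      abel
    have h1 := L.T_comp (L.c_T z) (u := fun s => τ (w s)) (a := τ X) (by simp [h0]) hτ
    have h2 := hW.vel (fun s => V L R z τ π (w s))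
      (fun s => (V_spec L R hW hz hτz hτW hπ hnil (hw s)).1) (by
        show V L R z τ π (w 0) = 0
        rw [h0, hV0]) _ hV
    have h3 := L.T_mul h1 h2
    have e : τ X • z + (X - τ X • z) = X := by abel
    rw [e] at h3
    have e2 : (fun t => L.c (w t) 1) = fun s => L.c z (τ (w s)) * L.c (V L R z τ π (w s)) 1 := by
      funext s
      rw [← hψ _ (hw s)]
      rfl
    rw [e2]
    exact h3
  · have h1 : ContinuousOn (fun x => psi L R z τ π x) (W ⊔ Submodule.span ℝ {z} : Submodule ℝ E) := by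
      have hτ : Continuous τ := LinearMap.continuous_of_finiteDimensional τ
      refine ContinuousOn.mul ((L.c_cont z).comp hτ).continuousOn ?_
      refine ContinuousOn.comp (t := (W : Set E)) hW.cont (V_cont L R z τ π).continuousOn ?_
      intro x hx
      exact (V_spec L R hW hz hτz hτW hπ hnil hx).1
    exact h1.congr fun x hx => (hψ x hx).symm

end step

theorem homOn_top (hconj : ∀ (g : G) (X : E) (t : ℝ), g * L.c X t * g⁻¹ = L.c (L.Ad g X) t)
    (hsmul : ∀ (a : ℝ) (X : E) (t : ℝ), L.c (a • X) t = L.c X (a * t))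
    (hexp : ∀ (X : E) (t : ℝ), L.Ad (L.c X t) = fexp (t • (L.ad X : Module.End ℝ E)))
    (hnil : NilLie L.ad) (hN : 1 ≤ N) : HomOn L R ⊤ := by
  obtain ⟨π, hπ⟩ := LinearMap.exists_leftInverse_of_injective R.ρ (LinearMap.ker_eq_bot.2 R.inj)
  have hπ' : ∀ x, π (R.ρ x) = x := fun x => LinearMap.congr_fun hπ x
  have key : ∀ d : ℕ, ∃ W : Submodule ℝ E, HomOn L R W ∧ (W = ⊤ ∨ d ≤ Module.finrank ℝ W) := by
    intro d
    induction d with
    | zero => exact ⟨⊥, homOn_bot L R hsmul, Or.inr (Nat.zero_le _)⟩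
    | succ d ih =>
      obtain ⟨W, hW, h⟩ := ih
      rcases eq_or_ne W ⊤ with hT | hT
      · exact ⟨W, hW, Or.inl hT⟩
      have h2 : d ≤ Module.finrank ℝ W := by
        rcases h with h | h
        · exact absurd h hT
        · exact h
      obtain ⟨z, hz, hzW⟩ := hnil.exists_next hT
      obtain ⟨σ, hσz, hσ⟩ := Submodule.exists_le_ker_of_notMem hz
      refine ⟨W ⊔ Submodule.span ℝ {z}, homOn_step L R hW hzW (τ := (σ z)⁻¹ • σ) (by
        rw [LinearMap.smul_apply, smul_eq_mul, inv_mul_cancel₀ hσz]) (fun x hx => by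
        rw [LinearMap.smul_apply, hσ hx, smul_zero]) hπ' hnil hconj hexp hN, Or.inr ?_⟩
      have h3 : W < W ⊔ Submodule.span ℝ {z} := by
        rw [lt_iff_le_and_ne]
        refine ⟨le_sup_left, fun h => hz ?_⟩
        rw [h]
        exact Submodule.mem_sup_right (Submodule.mem_span_singleton_self z)
      have h4 := Submodule.finrank_lt_finrank_of_lt h3
      omega
  obtain ⟨W, hW, h⟩ := key (Module.finrank ℝ E)
  rcases h with h | h
  · rwa [h] at hW
  · have h2 : W = ⊤ := Submodule.eq_top_of_finrank_eq (le_antisymm (Submodule.finrank_le W) h)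
    rwa [h2] at hW

theorem hom_facts {G : Type*} [Group G] [TopologicalSpace G] [IsTopologicalGroup G] {E : Type*}
    [NormedAddCommGroup E] [NormedSpace ℝ E] [FiniteDimensional ℝ E] (L : LieStr G E)
    (hconj : ∀ (g : G) (X : E) (t : ℝ), g * L.c X t * g⁻¹ = L.c (L.Ad g X) t)
    (hsmul : ∀ (a : ℝ) (X : E) (t : ℝ), L.c (a • X) t = L.c X (a * t))
    (hexp : ∀ (X : E) (t : ℝ), L.Ad (L.c X t) = fexp (t • (L.ad X : Module.End ℝ E)))
    (hnil : NilLie L.ad) {N : ℕ} (R : NilRep L.ad N) :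
    (∀ X Y : E, ∃ Z : E, IsNilpotent.exp (R.ρ X) * IsNilpotent.exp (R.ρ Y) =
      IsNilpotent.exp (R.ρ Z)) ∧
    (∀ X Y Z : E, IsNilpotent.exp (R.ρ X) * IsNilpotent.exp (R.ρ Y) = IsNilpotent.exp (R.ρ Z) →
      L.c X 1 * L.c Y 1 = L.c Z 1) ∧
    Continuous (fun X => L.c X 1) := by
  refine ⟨R.exp_mul, ?_⟩
  rcases Nat.eq_zero_or_pos N with hN | hN
  · subst hN
    have hs : Subsingleton E := by
      constructor
      intro a b
      apply R.inj
      ext i
      exact i.elim0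
    refine ⟨fun X Y Z _ => ?_, ?_⟩
    · rw [Subsingleton.elim X 0, Subsingleton.elim Y 0, Subsingleton.elim Z 0, c_zero L hsmul,
        one_mul]
    · exact continuous_of_discreteTopology
  · have h := homOn_top L R hconj hsmul hexp hnil hN
    refine ⟨fun X Y Z => h.hom X trivial Y trivial Z trivial, ?_⟩
    have h2 := h.cont
    rw [Submodule.top_coe, ← continuousOn_univ] at *
    exact h2

end Pool.Agent.TH91.LG
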